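import Pool.Agent.Helper53K9.CC.Limit
import Pool.Agent.TH145.GC.Scale

/-!
# Heights and finiteness for generic cyclic covers
-/

set_option autoImplicit false

open MvPolynomial FF Pool.Agent.W603.LV Pool.Agent.W603.PV Pool.Agent.W602.RG
open Pool.Agent.TH145.GH
open Pool.Agent.TH145.GC (Data Gen Full Cf finite_cf exists_rig_data rank_le exists_data_L exists_all
  exists_big Rt indep_scale)

namespace Pool.Agent.Helper53K9.CC

variable {k0 K ι : Type} [Field k0] [Field K] [Algebra k0 K] [IsAlgClosed K] [CharZero K]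
  {y : ι → K} (E : IntermediateField (IntermediateField.adjoin k0 (Set.range y)) K)

theorem om_mk_pow {k : Type} [Field k] (u : ℕ → k) (m : ℕ) :
    Om.mk u ^ m = Om.mk (fun n => u n ^ m) := by
  induction m with
  | zero =>
    have h1 : (fun n => u n ^ 0) = fun _ => (1 : k) := funext fun n => pow_zero _
    rw [pow_zero, h1, Om.mk_one]
  | succ m ih =>
    have h1 : (fun n => u n ^ (m + 1)) = fun n => u n ^ m * u n := funext fun n => pow_succ _ _
    rw [pow_succ, ih, Om.mk_mul, h1]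

/-- The height of a root. -/
theorem hgt_root_le {κ L : Type} [Field κ] [Field L] [Algebra κ L] [IsAlgClosed κ] [CharZero κ]
    [IsFF κ L] {w v : L} {q : ℕ} (hq : 1 ≤ q) (h : w ^ q = v) : hgt κ w ≤ hgt κ v := by
  by_cases hw : w = 0
  · rw [← h, hw, zero_pow (by omega)]
  · rw [← h, hgt_pow hw]
    have h1 : 0 ≤ hgt κ w := hgt_nonneg _
    have h2 : (1 : ℤ) ≤ q := by exact_mod_cast hq
    nlinarith

open scoped Classical in
/-- The heights of the points are bounded. -/
theorem heights1 {n m : ℕ} {A : Type} [Fintype A] {dg : A → ℕ} (hy : AlgebraicIndependent k0 y)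
    [FiniteDimensional (IntermediateField.adjoin k0 (Set.range y)) E]
    {F : A → MvPolynomial (Fin (n + 1)) E.toSubfield}
    {DE : A → (Fin (n + 1) →₀ ℕ) → E.toSubfield → E.toSubfield}
    (hG : Gen F dg DE)
    (D : A → (Fin (n + 1) →₀ ℕ) → Derivation ℤ K K)
    (hDE : ∀ a I (x : E.toSubfield), D a I x = (DE a I x : K))
    (hDk : ∀ a I (r : k0), D a I (algebraMap k0 K r) = 0)
    (hDy : ∀ a I j, ∃ r : k0, D a I (y j) = algebraMap k0 K r) (C : Finset A) {q s : A → ℕ}
    (hq : ∀ a, a ∉ C → 1 ≤ q a ∧ dg a = q a * s a)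
    (hd : 2 * m + 2 + ∑ a ∈ Finset.univ.filter (fun a => a ∉ C), s a ≤ ∑ a, dg a + C.card)
    (V : Set (MvPolynomial (Fin (n + 1)) k0)) (hV : Pool.Agent.TH145.MG.DimLE k0 V m)
    (l0 : Fin (n + 1)) (i : ι) :
    ∃ B : ℤ, ∀ (x : Fin (n + 1) → E) (w : A → E), x l0 = 1 →
      (∀ f ∈ V, eval₂ (algebraMap k0 K) (fun j => (x j : K)) f = 0) →
      (∀ a ∈ C, eval (fun j => (x j : K)) (map E.toSubfield.subtype (F a)) = 0) →
      (∀ a, a ∉ C → eval (fun j => (x j : K)) (map E.toSubfield.subtype (F a)) ≠ 0) →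
      (∀ a, a ∉ C → (w a : K) ^ q a =
        eval (fun j => (x j : K)) (map E.toSubfield.subtype (F a))) →
      (∀ j, hgt (kap k0 y i) (⟨(x j : K), subset_LL y _ i (x j).2⟩ :
        LL k0 y (E : Set K) i) ≤ B) ∧ ∀ a, a ∉ C →
        hgt (kap k0 y i) (⟨(w a : K), subset_LL y _ i (w a).2⟩ :
        LL k0 y (E : Set K) i) ≤ B := by
  have hFF : IsFF (kap k0 y i) (LL k0 y (E : Set K) i) := LL_ff E hy i
  have hac : IsAlgClosed (kap k0 y i) := acl_isAlgClosed _
  have hcz : CharZero (kap k0 y i) := charZero_of_injective_algebraMap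
    (algebraMap ℚ (kap k0 y i)).injective
  obtain ⟨φ, D', e, hφ, hD', hdat⟩ := exists_data_L E hy hG D hDE hDk hDy i
  -- the poles of the coefficients
  have hcf := finite_cf n dg
  have hcf' : Fintype (Cf n dg) := Fintype.ofFinite _
  obtain ⟨g1, hg1, hg1f, hg1T⟩ := exists_poles (κ := kap k0 y i)
    (Finset.univ.image (fun p : Cf n dg => φ ((F p.1).coeff p.2.1)))
  obtain ⟨e', he'⟩ : ∃ e' : Place (kap k0 y i) (LL k0 y (E : Set K) i) → ℤ,
    ∀ P, e' P = e P + g1 P := ⟨_, fun _ => rfl⟩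
  have hdat' : Data (kap k0 y i) (fun a => map φ (F a)) dg D' e' := by
    refine hdat.mono (fun P => ?_) ((hg1f.union hdat.fin).subset fun P hP => ?_)
    · rw [he']; have := hg1 P; omega
    · by_contra hcon
      apply hP
      rw [Set.mem_union, not_or] at hcon
      have h1 : ¬ (e P ≠ 0) := hcon.2
      have h2 : ¬ (g1 P ≠ 0) := hcon.1
      rw [he']
      omega
  have hco : ∀ P a u, Ge P (-e' P) ((map φ (F a)).coeff u) := by
    intro P a u
    rw [coeff_map]
    by_cases hu : u ∈ (F a).support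
    · have := hg1T P _ (Finset.mem_image_of_mem _ (Finset.mem_univ
        (⟨a, u, deg_of_mem (hG.hom a) hu⟩ : Cf n dg)))
      refine this.mono ?_
      rw [he']
      have := hdat.e_nonneg P
      omega
    · rw [notMem_support_iff.1 hu, map_zero]
      exact Ge.zero
  obtain ⟨H, hH⟩ : ∃ H : ℤ, H = max (∑ᶠ P, ((n + 1 + 2 * Fintype.card A) * e' P)) 0 := ⟨_, rfl⟩
  choose B1 hB1 using fun a => hgt_eval_le (κ := kap k0 y i) H (map φ (F a))
  have hH0 : 0 ≤ H := by rw [hH]; exact le_max_right _ _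
  obtain ⟨B2, hB2⟩ : ∃ B2 : ℤ, ∀ a, B1 a ≤ B2 := by
    obtain ⟨B, hB⟩ := (Set.finite_range fun a => B1 a).bddAbove
    exact ⟨B, fun a => hB ⟨a, rfl⟩⟩
  refine ⟨max H B2, fun x w hx hxV hxC hxF hw => ?_⟩
  obtain ⟨x', hx'⟩ : ∃ x' : Fin (n + 1) → LL k0 y (E : Set K) i,
    ∀ j, x' j = ⟨(x j : K), subset_LL y _ i (x j).2⟩ := ⟨_, fun _ => rfl⟩
  obtain ⟨w', hw'⟩ : ∃ w' : A → LL k0 y (E : Set K) i,
    ∀ a, w' a = ⟨(w a : K), subset_LL y _ i (w a).2⟩ := ⟨_, fun _ => rfl⟩
  have hxl0 : x' l0 = 1 := by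
    rw [hx']
    apply Subtype.ext
    change (x l0 : K) = 1
    rw [hx]; rfl
  have hx0 : x' ≠ 0 := by
    intro h0
    rw [h0] at hxl0
    exact zero_ne_one hxl0
  have hev : ∀ a, algebraMap (LL k0 y (E : Set K) i) K (eval x' (map φ (F a))) =
      eval (fun j => (x j : K)) (map E.toSubfield.subtype (F a)) := by
    intro a
    rw [eval_incl φ hφ (F a) x']
    congr 2
    funext j
    rw [hx']
    rfl
  have hxC' : ∀ a ∈ C, eval x' (map φ (F a)) = 0 := by
    intro a ha
    apply (algebraMap (LL k0 y (E : Set K) i) K).injective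
    rw [map_zero, hev, hxC a ha]
  have hxF' : ∀ a, a ∉ C → eval x' (map φ (F a)) ≠ 0 := by
    intro a ha h0
    have h1 := hev a
    rw [h0, map_zero] at h1
    exact hxF a ha h1.symm
  have hwq : ∀ a, a ∉ C → w' a ^ q a = eval x' (map φ (F a)) := by
    intro a ha
    apply (algebraMap (LL k0 y (E : Set K) i) K).injective
    rw [map_pow, hev, hw', ← hw a ha]
    rfl
  -- the dimension
  have hrk : Module.finrank (LL k0 y (E : Set K) i) (Full dg D' x') ≤ m + 1 := by
    let ψ : k0 →+* LL k0 y (E : Set K) i :=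
      { toFun := fun r => ⟨algebraMap k0 K r, subset_LL y _ i (k0_mem E r)⟩
        map_one' := Subtype.ext (map_one _)
        map_mul' := fun a b => Subtype.ext (map_mul _ a b)
        map_zero' := Subtype.ext (map_zero _)
        map_add' := fun a b => Subtype.ext (map_add _ a b) }
    have hczL : CharZero (LL k0 y (E : Set K) i) :=
      charZero_of_injective_algebraMap (algebraMap (kap k0 y i) _).injective
    let _ : Algebra k0 (LL k0 y (E : Set K) i) := ψ.toAlgebra
    refine rank_le (k0 := k0) (fun a I r => ?_) hxl0 ?_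
    · apply Subtype.ext
      rw [hD']
      exact hDk a I r
    · refine hV _ x' hx0 fun f hf => ?_
      apply Subtype.ext
      have h1 := hom_eval₂ f ψ (algebraMap (LL k0 y (E : Set K) i) K) x'
      refine h1.trans ?_
      have h2 : (algebraMap (LL k0 y (E : Set K) i) K).comp ψ = algebraMap k0 K := by
        ext r
        rfl
      have h3 : (fun j => algebraMap (LL k0 y (E : Set K) i) K (x' j)) = fun j => (x j : K) := by
        funext j
        rw [hx']
        rfl
      rw [h2, h3]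
      exact hxV f hf
  have h1 : pht (kap k0 y i) x' ≤ H := by
    rw [hH]
    exact (ineq1 hdat' hco hd hx0 hrk hxC' hxF'
      (fun a ha => ⟨(hq a ha).1, (hq a ha).2, hwq a ha⟩)).trans (le_max_left _ _)
  have h2 : ∀ j, hgt (kap k0 y i) (x' j) ≤ H := by
    intro j
    by_cases hj : x' j = 0
    · rw [hj]
      have := Pool.Agent.TH145.MG.hgt_const (k := kap k0 y i) (L := LL k0 y (E : Set K) i) 0
      rw [map_zero] at this
      rw [this]
      exact hH0
    · have h2 := Pool.Agent.W603.CX.hgt_le_pht (k := kap k0 y i) x' hj (l := l0)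
        (by rw [hxl0]; exact one_ne_zero)
      rw [hxl0, div_one] at h2
      exact h2.trans h1
  refine ⟨fun j => ?_, fun a ha => ?_⟩
  · rw [← hx']
    exact (h2 j).trans (le_max_left _ _)
  · rw [← hw']
    exact ((hgt_root_le (hq a ha).1 (hwq a ha)).trans (hB1 a x' h2)).trans
      ((hB2 a).trans (le_max_right _ _))

open scoped Classical in
/-- Finiteness of the points. -/
theorem fin_all1 {n m : ℕ} {A : Type} [Fintype A] {dg : A → ℕ} [IsAlgClosed k0] [Finite ι]
    (hy : IsTranscendenceBasis k0 y)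
    [FiniteDimensional (IntermediateField.adjoin k0 (Set.range y)) E]
    [IsGalois (IntermediateField.adjoin k0 (Set.range y)) E]
    {F : A → MvPolynomial (Fin (n + 1)) E.toSubfield}
    {DE : A → (Fin (n + 1) →₀ ℕ) → E.toSubfield → E.toSubfield}
    (hG : Gen F dg DE)
    (D : A → (Fin (n + 1) →₀ ℕ) → Derivation ℤ K K)
    (hDE : ∀ a I (x : E.toSubfield), D a I x = (DE a I x : K))
    (hDk : ∀ a I (r : k0), D a I (algebraMap k0 K r) = 0)
    (hDy : ∀ a I j, ∃ r : k0, D a I (y j) = algebraMap k0 K r) (C : Finset A) {q s : A → ℕ}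
    (hq : ∀ a, a ∉ C → 1 ≤ q a ∧ dg a = q a * s a)
    (hd : 2 * m + 2 + ∑ a ∈ Finset.univ.filter (fun a => a ∉ C), s a ≤ ∑ a, dg a + C.card)
    (V : Set (MvPolynomial (Fin (n + 1)) k0)) (hV : Pool.Agent.TH145.MG.DimLE k0 V m)
    (l0 : Fin (n + 1)) :
    {x : Fin (n + 1) → K | (∀ j, x j ∈ E) ∧ x l0 = 1 ∧
      (∀ f ∈ V, eval₂ (algebraMap k0 K) x f = 0) ∧
      (∀ a ∈ C, eval x (map E.toSubfield.subtype (F a)) = 0) ∧
      (∀ a, a ∉ C → eval x (map E.toSubfield.subtype (F a)) ≠ 0) ∧
      ∀ a, a ∉ C → ∃ w ∈ E, w ^ q a = eval x (map E.toSubfield.subtype (F a))}.Finite := by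
  by_contra hinf
  let f := Set.Infinite.natEmbedding _ hinf
  obtain ⟨x, hx⟩ : ∃ x : ℕ → Fin (n + 1) → K, ∀ n, x n = (f n).1 := ⟨_, fun _ => rfl⟩
  have hxinj : Function.Injective x := by
    intro a b hab
    rw [hx, hx] at hab
    exact f.injective (Subtype.ext hab)
  have hxE : ∀ n j, x n j ∈ E := fun n j => by rw [hx]; exact (f n).2.1 j
  have hxl : ∀ n, x n l0 = 1 := fun n => by rw [hx]; exact (f n).2.2.1
  have hxV : ∀ n, ∀ f ∈ V, eval₂ (algebraMap k0 K) (x n) f = 0 := fun n => by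
    rw [hx]; exact (f n).2.2.2.1
  have hxC : ∀ n, ∀ a ∈ C, eval (x n) (map E.toSubfield.subtype (F a)) = 0 := fun n => by
    rw [hx]; exact (f n).2.2.2.2.1
  have hxF : ∀ n a, a ∉ C → eval (x n) (map E.toSubfield.subtype (F a)) ≠ 0 := fun n => by
    rw [hx]; exact (f n).2.2.2.2.2.1
  have hxw : ∀ n a, ∃ w : E, a ∉ C →
      (w : K) ^ q a = eval (x n) (map E.toSubfield.subtype (F a)) := by
    intro n a
    by_cases ha : a ∈ C
    · exact ⟨0, fun h => absurd ha h⟩
    · rw [hx]
      obtain ⟨w, hw, h⟩ := (f n).2.2.2.2.2.2 a ha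
      exact ⟨⟨w, hw⟩, fun _ => h⟩
  choose w' hw' using hxw
  obtain ⟨w, hwd⟩ : ∃ w : ℕ → A → E, ∀ n a, w n a = if a ∈ C then 0 else w' n a :=
    ⟨_, fun _ _ => rfl⟩
  have hw : ∀ n a, a ∉ C → (w n a : K) ^ q a = eval (x n) (map E.toSubfield.subtype (F a)) := by
    intro n a ha
    rw [hwd, if_neg ha]
    exact hw' n a ha
  choose B hB using fun i => heights1 E hy.1 hG D hDE hDk hDy C hq hd V hV l0 i
  have hB' : ∀ n i, (∀ j, hgt (kap k0 y i) (⟨x n j, subset_LL y _ i (hxE n j)⟩ :
        LL k0 y (E : Set K) i) ≤ B i) ∧ ∀ a, a ∉ C →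
      hgt (kap k0 y i) (⟨(w n a : K), subset_LL y _ i (w n a).2⟩ :
        LL k0 y (E : Set K) i) ≤ B i := fun n i =>
    hB i (fun j => ⟨x n j, hxE n j⟩) (w n) (Subtype.ext (hxl n)) (hxV n) (hxC n) (hxF n)
      (hw n)
  have hz : ∀ j, Om.mk (fun n => x n j) ∈ OE k0 ((E.toSubfield : Subfield K) : Set K) := fun j =>
    lim_mem E hy (fun n => ⟨x n j, hxE n j⟩) B fun n i => (hB' n i).1 j
  have hwz : ∀ a, Om.mk (fun n => (w n a : K)) ∈ OE k0 ((E.toSubfield : Subfield K) : Set K) := by
    intro a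
    by_cases ha : a ∈ C
    · have h1 : (fun n => (w n a : K)) = fun _ => 0 := by
        funext n
        rw [hwd, if_pos ha]
        exact ZeroMemClass.coe_zero E
      rw [h1, Om.mk_zero]
      exact zero_mem _
    · exact lim_mem E hy (fun n => w n a) B fun n i => (hB' n i).2 a ha
  have hev : ∀ a, eval (fun j => Om.mk fun n => x n j)
      (map ((cst K).comp E.toSubfield.subtype) (F a)) =
      Om.mk fun n => eval (x n) (map E.toSubfield.subtype (F a)) := fun a => eval_mk (F a) x
  have hacl := limit1 E.toSubfield (fun r => k0_mem E r) hG D hDE hDk C hq hd V hV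
    (fun j => Om.mk fun n => x n j) (fun a => Om.mk fun n => (w n a : K)) hz hwz (l0 := l0) (by
      have h1 : (fun n => x n l0) = fun _ => 1 := funext hxl
      rw [h1]; rfl) (fun f hf => by
      have h1 := Pool.Agent.TH145.MG.eval_mk x (map (algebraMap k0 K) f)
      have h2 : (fun n => eval (x n) (map (algebraMap k0 K) f)) = fun _ => 0 := by
        funext n
        rw [eval_map]
        exact hxV n f hf
      rw [h2] at h1
      have h3 : eval₂ (cst K) (fun j => Om.mk fun n => x n j) (map (algebraMap k0 K) f) = 0 := h1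
      rwa [eval₂_map] at h3) (fun a ha => by
      rw [hev]
      have h1 : (fun n => eval (x n) (map E.toSubfield.subtype (F a))) = fun _ => 0 :=
        funext fun n => hxC n a ha
      rw [h1]; rfl) (fun a ha => by
      rw [hev]
      intro h0
      have h1 : (Om.mk fun n => eval (x n) (map E.toSubfield.subtype (F a))) = Om.mk fun _ => 0 :=
        h0
      rw [Om.mk_eq] at h1
      obtain ⟨n, hn⟩ := h1.exists
      exact hxF n a ha hn) (fun a ha => by
      have h3 : (fun n => eval (x n) (map E.toSubfield.subtype (F a))) = fun n =>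
          (w n a : K) ^ q a := funext fun n => (hw n a ha).symm
      rw [hev, h3]
      exact om_mk_pow (fun n => (w n a : K)) (q a))
  choose a ha using fun j => eventually_const (hacl j)
  exact not_all_const hxinj a ha

open scoped Classical in
/-- Finiteness of the points over a finitely generated field. -/
theorem fin_points1 {k0 K : Type} [Field k0] [Field K] [Algebra k0 K] [IsAlgClosed K]
    [CharZero K] [IsAlgClosed k0] {n m : ℕ} {A : Type} [Fintype A] {dg : A → ℕ} (C : Finset A)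
    {q s : A → ℕ} (hq : ∀ a, a ∉ C → 1 ≤ q a ∧ dg a = q a * s a)
    (hd : 2 * m + 2 + ∑ a ∈ Finset.univ.filter (fun a => a ∉ C), s a ≤ ∑ a, dg a + C.card)
    (V : Set (MvPolynomial (Fin (n + 1)) k0)) (hV : Pool.Agent.TH145.MG.DimLE k0 V m)
    {F : A → MvPolynomial (Fin (n + 1)) K} (hF : ∀ a, (F a).IsHomogeneous (dg a))
    (hind : AlgebraicIndependent k0 fun p : Cf n dg => (F p.1).coeff p.2.1)
    (T : Finset K) (l0 : Fin (n + 1)) :
    {x : Fin (n + 1) → K | (∀ j, x j ∈ IntermediateField.adjoin k0 (T : Set K)) ∧ x l0 = 1 ∧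
      (∀ f ∈ V, aeval x f = 0) ∧ (∀ a ∈ C, eval x (F a) = 0) ∧
      (∀ a, a ∉ C → eval x (F a) ≠ 0) ∧ ∀ a, a ∉ C →
        ∃ w ∈ IntermediateField.adjoin k0 (T : Set K), w ^ q a = eval x (F a)}.Finite := by
  obtain ⟨B, hB, K1, y, E, F1, DE, D, hK1, hc, hy, h1, h2, h3, h4, h5, h6, h7, h8⟩ :=
    exists_all hF hind T
  have : Finite B := hB
  have h9 := fin_all1 E hy h3 D h4 h5 h6 C hq hd V hV l0
  refine (h9.image fun x j => (x j : K)).subset ?_
  rintro x ⟨hx, hxl, hxV, hxC, hxF, hxs⟩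
  choose e he hex using fun j => h8 (x j) (hx j)
  have hex' : (fun j => algebraMap K1 K (e j)) = x := funext hex
  have hev : ∀ a, algebraMap K1 K (eval e (map E.toSubfield.subtype (F1 a))) =
      eval x (F a) := by
    intro a
    rw [← h7, eval_map, eval_map]
    have h10 := hom_eval₂ (F1 a) E.toSubfield.subtype (algebraMap K1 K) e
    rw [h10, hex']
  refine ⟨e, ⟨he, ?_, fun f hf => ?_, fun a ha => ?_, fun a ha => ?_, fun a ha => ?_⟩,
    funext hex⟩
  · apply Subtype.ext
    rw [hex, hxl]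
    rfl
  · apply (algebraMap K1 K).injective
    have h10 := hom_eval₂ f (algebraMap k0 K1) (algebraMap K1 K) e
    rw [h10, map_zero, hex']
    exact hxV f hf
  · apply (algebraMap K1 K).injective
    rw [hev, hxC a ha, map_zero]
  · intro h0
    have h10 := hev a
    rw [h0, map_zero] at h10
    exact hxF a ha h10.symm
  · obtain ⟨w, hw, hwx⟩ := hxs a ha
    obtain ⟨w', hw', hww⟩ := h8 w hw
    refine ⟨w', hw', ?_⟩
    apply (algebraMap K1 K).injective
    rw [map_pow, hev, ← hwx]
    congr 1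

open scoped Classical in
/-- Finiteness of the points, if the ratios of the coefficients are independent. -/
theorem fin_points1' {k0 K : Type} [Field k0] [Field K] [Algebra k0 K] [IsAlgClosed K]
    [CharZero K] [IsAlgClosed k0] {n m : ℕ} {A : Type} [Fintype A] {dg : A → ℕ} (C : Finset A)
    {q s : A → ℕ} (hq : ∀ a, a ∉ C → 1 ≤ q a ∧ dg a = q a * s a)
    (hd : 2 * m + 2 + ∑ a ∈ Finset.univ.filter (fun a => a ∉ C), s a ≤ ∑ a, dg a + C.card)
    (V : Set (MvPolynomial (Fin (n + 1)) k0)) (hV : Pool.Agent.TH145.MG.DimLE k0 V m)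
    (F : A → MvPolynomial (Fin (n + 1)) K) (hF : ∀ a, (F a).IsHomogeneous (dg a))
    (I0 : A → Fin (n + 1) →₀ ℕ) (h0 : ∀ a, (F a).coeff (I0 a) ≠ 0)
    (hind : AlgebraicIndependent k0 fun p : Rt dg I0 =>
      (F p.1).coeff p.2.1 / (F p.1).coeff (I0 p.1))
    (T : Finset K) (l0 : Fin (n + 1)) :
    {x : Fin (n + 1) → K | (∀ j, x j ∈ IntermediateField.adjoin k0 (T : Set K)) ∧ x l0 = 1 ∧
      (∀ f ∈ V, aeval x f = 0) ∧ (∀ a ∈ C, eval x (F a) = 0) ∧
      (∀ a, a ∉ C → eval x (F a) ≠ 0) ∧ ∀ a, a ∉ C →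
        ∃ w ∈ IntermediateField.adjoin k0 (T : Set K), w ^ q a = eval x (F a)}.Finite := by
  obtain ⟨K', _, _, hK', hc, t, ht⟩ := exists_big K A
  let _ : Algebra k0 K' := ((algebraMap K K').comp (algebraMap k0 K)).toAlgebra
  have hst : IsScalarTower k0 K K' := IsScalarTower.of_algebraMap_eq fun _ => rfl
  have hI0 : ∀ a, (I0 a).degree = dg a := fun a =>
    deg_of_mem (hF a) (mem_support_iff.2 (h0 a))
  have h1 := indep_scale (k0 := k0) (K' := K') F I0 hI0 h0 hind ht
  obtain ⟨G, hG⟩ : ∃ G : A → MvPolynomial (Fin (n + 1)) K', ∀ a, G a =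
    MvPolynomial.C (t a / algebraMap K K' ((F a).coeff (I0 a))) * map (algebraMap K K') (F a) :=
    ⟨_, fun _ => rfl⟩
  have h2 : ∀ a, (G a).IsHomogeneous (dg a) := fun a => by
    have := (isHomogeneous_C (Fin (n + 1)) (t a / algebraMap K K' ((F a).coeff (I0 a)))).mul
      ((hF a).map (algebraMap K K'))
    rwa [zero_add, ← hG] at this
  have h4 : (fun p : Cf n dg => (G p.1).coeff p.2.1) =
      fun p => t p.1 / algebraMap K K' ((F p.1).coeff (I0 p.1)) *
        algebraMap K K' ((F p.1).coeff p.2.1) := by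
    funext p
    rw [hG, coeff_C_mul, coeff_map]
  have h5 : AlgebraicIndependent k0 (fun p : Cf n dg => (G p.1).coeff p.2.1) := by
    rw [h4]
    exact h1
  have ha0 : ∀ a, algebraMap K K' ((F a).coeff (I0 a)) ≠ 0 := fun a => by
    rw [Ne, map_eq_zero]; exact h0 a
  have ht0 : ∀ a, t a ≠ 0 := fun a => by
    intro h5
    have h6 : Transcendental K (t a) := ht.transcendental a
    rw [h5] at h6
    exact h6 (by
      have := isAlgebraic_algebraMap (R := K) (A := K') 0
      rwa [map_zero] at this)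
  -- the roots of the factors
  have hr : ∀ a, ∃ τ : K', a ∉ C → τ ^ q a = t a / algebraMap K K' ((F a).coeff (I0 a)) := by
    intro a
    by_cases ha : a ∈ C
    · exact ⟨0, fun h => absurd ha h⟩
    · obtain ⟨τ, hτ⟩ := IsAlgClosed.exists_pow_nat_eq
        (t a / algebraMap K K' ((F a).coeff (I0 a))) (hq a ha).1
      exact ⟨τ, fun _ => hτ⟩
  choose τ hτ using hr
  obtain ⟨T', hT'⟩ : ∃ T' : Finset K', T' = Finset.univ.image τ ∪ T.image (algebraMap K K') :=
    ⟨_, rfl⟩
  have h3 := fin_points1 (k0 := k0) C hq hd V hV h2 h5 T' l0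
  have hev : ∀ (a : A) (x : Fin (n + 1) → K), eval (fun j => algebraMap K K' (x j)) (G a) =
      t a / algebraMap K K' ((F a).coeff (I0 a)) * algebraMap K K' (eval x (F a)) := by
    intro a x
    rw [hG, map_mul, eval_map, eval_C]
    have h5 := eval₂_comp_left (algebraMap K K') (RingHom.id K) x (F a)
    rw [RingHom.comp_id] at h5
    congr 1
    exact h5.symm
  have hadj : ∀ u ∈ IntermediateField.adjoin k0 (T : Set K), algebraMap K K' u ∈
      IntermediateField.adjoin k0 (T' : Set K') := by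
    intro u hu
    have h4 : (IntermediateField.adjoin k0 (T : Set K)).map (IsScalarTower.toAlgHom k0 K K') =
        IntermediateField.adjoin k0 ((T.image (algebraMap K K') : Finset K') : Set K') := by
      rw [IntermediateField.adjoin_map, Finset.coe_image]
      rfl
    have h6 : algebraMap K K' u ∈
        IntermediateField.adjoin k0 ((T.image (algebraMap K K') : Finset K') : Set K') := by
      rw [← h4]
      exact ⟨u, hu, rfl⟩
    refine IntermediateField.adjoin.mono _ _ _ ?_ h6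
    rw [hT', Finset.coe_union]
    exact Set.subset_union_right
  refine Set.Finite.of_finite_image (f := fun x j => algebraMap K K' (x j)) (h3.subset ?_) ?_
  · rintro _ ⟨x, ⟨hx, hxl, hxV, hxC, hxF, hxs⟩, rfl⟩
    refine ⟨fun j => ?_, ?_, fun f hf => ?_, fun a ha => ?_, fun a ha => ?_, fun a ha => ?_⟩
    · exact hadj _ (hx j)
    · dsimp only
      rw [hxl, map_one]
    · have h6 := congrArg (algebraMap K K') (hxV f hf)
      rw [map_zero] at h6
      rw [← h6]
      exact (hom_eval₂ f (algebraMap k0 K) (algebraMap K K') x).symm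
    · rw [hev, hxC a ha, map_zero, mul_zero]
    · rw [hev]
      exact mul_ne_zero (div_ne_zero (ht0 a) (ha0 a)) (by rw [Ne, map_eq_zero]; exact hxF a ha)
    · obtain ⟨w, hw, hwx⟩ := hxs a ha
      refine ⟨τ a * algebraMap K K' w, mul_mem (IntermediateField.subset_adjoin _ _ ?_)
        (hadj w hw), ?_⟩
      · rw [hT', Finset.mem_coe]
        exact Finset.mem_union_left _ (Finset.mem_image_of_mem _ (Finset.mem_univ _))
      · rw [hev, mul_pow, hτ a ha, ← map_pow, hwx]
  · intro x _ x' _ hxx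
    funext j
    exact (algebraMap K K').injective (congrFun hxx j)

end Pool.Agent.Helper53K9.CC
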