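import Pool.Agent.TH145.GC.Ineq
import Pool.Agent.TH145.GH.LossB

/-!
# The height inequality for generic cyclic covers
-/

set_option autoImplicit false

open MvPolynomial FF Pool.Agent.W603.LV Pool.Agent.W603.PV Pool.Agent.TH145.GH
open Pool.Agent.TH145.GC

namespace Pool.Agent.Helper53K9.CC

variable {k K : Type} [Field k] [Field K] [Algebra k K]

section

variable {n : ℕ} {A : Type} {F : A → MvPolynomial (Fin (n + 1)) K} {dg : A → ℕ}
    {D : A → (Fin (n + 1) →₀ ℕ) → Derivation ℤ K K} {e : Place k K → ℤ}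

/-- The order of the differential of a form along the rows. -/
theorem ge_dF1 (hdat : Data k F dg D e) (P : Place k K) {x : Fin (n + 1) → K}
    (hx : ∀ l, Ge P 0 (x l)) {I : A → Fin (n + 1) →₀ ℕ} (hI : ∀ a, (I a).degree = dg a)
    {a : A} {ρ : ℤ} (hρ : Ge P ρ (eval x (F a))) (hlog : ∀ c, ∀ I : Fin (n + 1) →₀ ℕ,
      I.degree = dg c → Ge P ρ (D c I (eval x (F a))))
    (i : Option (Ti n A) ⊕ A) (hi : i ≠ Sum.inr a) :
    Ge P ρ (dF (F a) x (vv dg D x I i)) := by
  classical
  rcases i with (_ | t) | c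
  · simp only [vv, wv]
    rw [dF_self (hdat.hom a)]
    have := (Ge.natCast (P := P) (dg a)).mul hρ
    exact this.mono (by omega)
  · simp only [vv, wv]
    by_cases ht : t.2.1.degree + 1 = dg t.1
    · rw [dF_tv hdat.hom hdat.dual x a t ht]
      refine Ge.mono (by omega : _ ≤ 0 + ρ) (Ge.sub ?_ ?_)
      · exact (hx _).mul (hlog _ _ (by rw [map_add, Finsupp.degree_single, ht]))
      · exact (hx _).mul (hlog _ _ (by rw [map_add, Finsupp.degree_single, ht]))
    · rw [tv, if_neg ht]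
      have h1 : dF (F a) x 0 = 0 := by simp [dF]
      rw [h1]
      exact Ge.zero
  · simp only [vv]
    rw [dF_Ev hdat.hom hdat.dual x (hI c), if_neg fun h => hi (by rw [h]), sub_zero]
    exact hlog c _ (hI c)

open scoped Classical in
/-- The order of the determinant at a scaled point, with truncated multiplicities. -/
theorem ord_det1 (hdat : Data k F dg D e) [Fintype A] (P : Place k K) {x : Fin (n + 1) → K}
    (hx : ∀ l, Ge P 0 (x l)) {e1 : Fin (n + 1)} (he1 : x e1 = 1)
    {b : Finset (Option (Ti n A) ⊕ A)} (σ : b → Fin (n + 1))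
    (hcard : Module.finrank K (Full dg D x) = b.card)
    (hdet : (mx dg D x (fun a => Finsupp.single e1 (dg a)) b σ).det ≠ 0)
    (hG : ∀ a, Sum.inr a ∉ b → eval x (F a) ≠ 0) :
    (∑ a ∈ Finset.univ.filter (fun a => Sum.inr a ∉ b), (P.ord (eval x (F a)) -
      if 0 < P.ord (eval x (F a)) then 1 else 0)) -
      (n + 1 + Fintype.card A) * e P ≤
      P.ord (mx dg D x (fun a => Finsupp.single e1 (dg a)) b σ).det := by
  have he := hdat.e_nonneg P
  have hdeg : ∀ a, (Finsupp.single e1 (dg a)).degree = dg a := fun a => Finsupp.degree_single _ _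
  have hbn : b.card ≤ n + 1 := by
    rw [← hcard]
    have := Submodule.finrank_le (Full dg D x)
    rwa [Module.finrank_fin_fun] at this
  have hbe : (b.card : ℤ) * e P ≤ (n + 1) * e P :=
    mul_le_mul_of_nonneg_right (by exact_mod_cast hbn) he
  have hAe : 0 ≤ (Fintype.card A : ℤ) * e P := by positivity
  have hP : ∀ f, f ≠ 0 → ∀ a, ∀ I : Fin (n + 1) →₀ ℕ, I.degree = dg a →
      Ge P (P.ord f - (e P + 1)) (D a I f) := fun f hf a I hI =>
    loss_all P (fun f hf => hdat.loss P f hf a I hI) hf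
  obtain ⟨y, hy⟩ : ∃ y : A → b → K, ∀ a, ∀ z ∈ Full dg D x,
      ∑ j, y a j * z (σ j) = dF (F a) x z := by
    choose y hy using fun a => exists_coord hdeg σ hcard hdet (F a)
    exact ⟨y, hy⟩
  obtain ⟨B', hB'⟩ : ∃ B' : Finset A, B' = (Finset.univ.filter fun a => Sum.inr a ∉ b).filter
      fun a => e P + 2 ≤ P.ord (eval x (F a)) := ⟨_, rfl⟩
  have hm : ∀ a ∈ B', Sum.inr a ∉ b ∧ e P + 2 ≤ P.ord (eval x (F a)) := fun a ha => by
    rw [hB', Finset.mem_filter, Finset.mem_filter] at ha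
    exact ⟨ha.1.2, ha.2⟩
  have h1 := det_est P y (fun a j => Ev D x a (Finsupp.single e1 (dg a)) (σ j))
    (fun a => P.ord (eval x (F a)) - (e P + 1)) (e P) B' (fun a _ j => ?_) (fun a ha => ?_)
    (fun a ha c hc hac => ?_)
    (fun i j => vv dg D x (fun a => Finsupp.single e1 (dg a)) i (σ j)) (fun i j => ?_)
    (fun a ha i => ?_)
  rotate_left
  · exact hdat.loss P _ (hx _) a _ (hdeg a)
  · rw [hy a _ (Ev_mem_full x (hdeg a)), dF_Ev hdat.hom hdat.dual x (hdeg a), if_pos rfl,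
      mon_single, he1, one_pow]
    refine sub_one_ord P ?_
    exact (hP _ (hG a (hm a ha).1) a _ (hdeg a)).mono (by have := (hm a ha).2; omega)
  · rw [hy c _ (Ev_mem_full x (hdeg a)), dF_Ev hdat.hom hdat.dual x (hdeg a), if_neg hac,
      sub_zero]
    exact hP _ (hG c (hm c hc).1) a _ (hdeg a)
  · exact hdat.ge_vv P hx hdeg _ _
  · rw [hy a _ (vv_mem_full x hdeg i)]
    refine ge_dF1 hdat P hx hdeg (Or.inr (by omega))
      (fun c I hI => hP _ (hG a (hm a ha).1) c I hI) _ ?_
    intro h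
    exact (hm a ha).1 (h ▸ i.2)
  have h2 : (Matrix.of fun (i j : b) => vv dg D x (fun a => Finsupp.single e1 (dg a)) i (σ j)) =
    mx dg D x (fun a => Finsupp.single e1 (dg a)) b σ := rfl
  rw [h2] at h1
  have h3 := h1.resolve_left hdet
  rw [Fintype.card_coe, Finset.sum_sub_distrib] at h3
  have h4 : ∑ a ∈ Finset.univ.filter (fun a => Sum.inr a ∉ b), (P.ord (eval x (F a)) -
      if 0 < P.ord (eval x (F a)) then 1 else 0) ≤
      ∑ a ∈ B', (P.ord (eval x (F a)) - 1) +
        ((Finset.univ.filter (fun a => Sum.inr a ∉ b)).filter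
        fun a => ¬ e P + 2 ≤ P.ord (eval x (F a))).card * e P := by
    rw [← Finset.sum_filter_add_sum_filter_not (Finset.univ.filter (fun a => Sum.inr a ∉ b))
      (fun a => e P + 2 ≤ P.ord (eval x (F a))), ← hB']
    refine add_le_add (Finset.sum_le_sum fun a ha => ?_) ?_
    · have := (hm a ha).2
      rw [if_pos (by omega)]
    · rw [← nsmul_eq_mul, ← Finset.sum_const]
      refine Finset.sum_le_sum fun a ha => ?_
      have := (Finset.mem_filter.1 ha).2
      split_ifs <;> omega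
  have h5 : B'.card + ((Finset.univ.filter (fun a => Sum.inr a ∉ b)).filter
        fun a => ¬ e P + 2 ≤ P.ord (eval x (F a))).card ≤ Fintype.card A := by
    rw [hB', Finset.card_filter_add_card_filter_not]
    exact Finset.card_le_univ _
  have h6 : ((B'.card : ℤ) + ((Finset.univ.filter (fun a => Sum.inr a ∉ b)).filter
        fun a => ¬ e P + 2 ≤ P.ord (eval x (F a))).card) * e P ≤ Fintype.card A * e P :=
    mul_le_mul_of_nonneg_right (by exact_mod_cast h5) he
  rw [Finset.sum_const, nsmul_eq_mul] at h3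
  rw [Finset.sum_sub_distrib (s := B'), Finset.sum_const, nsmul_eq_mul] at h4
  linarith

open scoped Classical in
/-- The local inequality. -/
theorem local_est1 (hdat : Data k F dg D e) [Fintype A] (P : Place k K)
    (hco : ∀ a u, Ge P (-e P) ((F a).coeff u))
    {x : Fin (n + 1) → K} {e0 : Fin (n + 1)} (he0 : x e0 ≠ 0)
    {b : Finset (Option (Ti n A) ⊕ A)} (hb : Sum.inl none ∈ b) (σ : b → Fin (n + 1))
    (hspan : Submodule.span K (Set.range (wv dg D x)) ≤
        Submodule.span K (wv dg D x '' {o | Sum.inl o ∈ b}))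
    (hcard : Module.finrank K (Full dg D x) = b.card)
    (hdet : (mx dg D x (fun a => Finsupp.single e0 (dg a)) b σ).det ≠ 0)
    (hG : ∀ a, Sum.inr a ∉ b → eval x (F a) ≠ 0) {q s : A → ℕ} {z : A → K}
    (hq : ∀ a, Sum.inr a ∉ b → 1 ≤ q a ∧ dg a = q a * s a ∧ z a ^ q a = eval x (F a)) :
    ((∑ i ∈ b, rd i : ℕ) - (∑ a, dg a : ℕ) +
      (∑ a ∈ Finset.univ.filter (fun a => Sum.inr a ∉ b), s a : ℕ)) * pord P x -
      (n + 1 + 2 * Fintype.card A) * e P ≤
      P.ord ((mx dg D x (fun a => Finsupp.single e0 (dg a)) b σ).det /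
        (∏ a, if Sum.inr a ∈ b then x e0 ^ dg a else eval x (F a)) *
        ∏ a ∈ Finset.univ.filter (fun a => Sum.inr a ∉ b), z a) := by
  have he := hdat.e_nonneg P
  have hx0 : x ≠ 0 := by
    rintro rfl
    exact he0 rfl
  obtain ⟨lam, x', hlam, hlamP, hxx, hx', e1, he1⟩ := exists_scaled P hx0
  have hdeg : ∀ a, (Finsupp.single e1 (dg a)).degree = dg a := fun a => Finsupp.degree_single _ _
  have hG1 : ∀ a, eval x (F a) = lam ^ dg a * eval x' (F a) := fun a => by
    rw [hxx, eval_smul_hom (hdat.hom a)]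
  have hG' : ∀ a, Sum.inr a ∉ b → eval x' (F a) ≠ 0 := fun a ha h0 => by
    apply hG a ha
    rw [hG1, h0, mul_zero]
  obtain ⟨dx, hdx⟩ : ∃ dx, dx = (mx dg D x (fun a => Finsupp.single e0 (dg a)) b σ).det :=
    ⟨_, rfl⟩
  obtain ⟨dx', hdx'⟩ : ∃ dx', dx' = (mx dg D x' (fun a => Finsupp.single e1 (dg a)) b σ).det :=
    ⟨_, rfl⟩
  have h1 := det_change he0 σ hspan (fun a => Finsupp.single e1 (dg a)) hdeg
  have h2 := det_lam (dg := dg) (D := D) (x := x') lam hb σ (fun a => Finsupp.single e1 (dg a))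
  rw [← hxx, ← hdx'] at h2
  rw [← hdx, h2] at h1
  have hmon : ∀ a, mon x (Finsupp.single e1 (dg a)) = lam ^ dg a := fun a => by
    rw [mon_single, hxx, Pi.smul_apply, he1, smul_eq_mul, mul_one]
  simp only [hmon] at h1
  rw [← hdx] at hdet ⊢
  obtain ⟨Z, hZ⟩ : ∃ Z, Z = ∏ a, if Sum.inr a ∈ b then x e0 ^ dg a else eval x (F a) := ⟨_, rfl⟩
  have hZ0 : Z ≠ 0 := by
    rw [hZ]
    refine Finset.prod_ne_zero_iff.2 fun a _ => ?_
    split_ifs with ha
    · exact pow_ne_zero _ he0
    · exact hG a ha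
  rw [← hZ]
  -- the main identity
  obtain ⟨Y, hY⟩ : ∃ Y, Y = ∏ a ∈ Finset.univ.filter (fun a => Sum.inr a ∉ b), eval x' (F a) :=
    ⟨_, rfl⟩
  have hY0 : Y ≠ 0 := by
    rw [hY]
    exact Finset.prod_ne_zero_iff.2 fun a ha => hG' a (Finset.mem_filter.1 ha).2
  have h3 : (∏ a, if Sum.inr a ∈ b then lam ^ dg a / x e0 ^ dg a else 1) * Z =
      lam ^ (∑ a, dg a) * Y := by
    rw [hZ, hY, ← Finset.prod_pow_eq_pow_sum, Finset.prod_filter, ← Finset.prod_mul_distrib,
      ← Finset.prod_mul_distrib]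
    refine Finset.prod_congr rfl fun a _ => ?_
    by_cases ha : Sum.inr a ∈ b
    · simp only [ha, if_true, not_true_eq_false, if_false, mul_one]
      rw [div_mul_cancel₀ _ (pow_ne_zero _ he0)]
    · simp only [ha, if_false, not_false_eq_true, if_true, one_mul]
      exact hG1 a
  have h4 : lam ^ (∑ i ∈ b, rd i) * dx' = dx / Z * (lam ^ (∑ a, dg a) * Y) := by
    rw [h1, ← h3]
    field_simp
  have hlp : ∀ m : ℕ, lam ^ m ≠ 0 := fun m => pow_ne_zero _ hlam
  have hq0 : dx / Z ≠ 0 := div_ne_zero hdet hZ0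
  have hdx'0 : dx' ≠ 0 := by
    intro h0
    rw [h0, mul_zero] at h4
    exact mul_ne_zero hq0 (mul_ne_zero (hlp _) hY0) h4.symm
  have h5 := congrArg P.ord h4
  rw [P.ord_mul (hlp _) hdx'0, P.ord_mul hq0 (mul_ne_zero (hlp _) hY0),
    P.ord_mul (hlp _) hY0, P.ord_pow, P.ord_pow, hlamP] at h5
  have h6 : P.ord Y = ∑ a ∈ Finset.univ.filter (fun a => Sum.inr a ∉ b),
      P.ord (eval x' (F a)) := by
    rw [hY]
    exact ord_prod P _ _ fun a ha => hG' a (Finset.mem_filter.1 ha).2
  have h7 := ord_det1 hdat P hx' he1 σ (by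
    rw [← hcard, hxx, full_scale_eq x' hlam]) (by rw [← hdx']; exact hdx'0) hG'
  rw [← hdx'] at h7
  -- the roots
  have hz0 : ∀ a, Sum.inr a ∉ b → z a ≠ 0 := by
    intro a ha h0
    obtain ⟨h8, -, h9⟩ := hq a ha
    rw [h0, zero_pow (by omega)] at h9
    exact hG a ha h9.symm
  have hzo : ∀ a, Sum.inr a ∉ b → (s a : ℤ) * pord P x + (if 0 < P.ord (eval x' (F a)) then 1
      else 0) - e P ≤ P.ord (z a) := by
    intro a ha
    obtain ⟨h8, h9, h10⟩ := hq a ha
    rw [hG1] at h10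
    have h11 := congrArg P.ord h10
    rw [P.ord_pow, P.ord_mul (hlp _) (hG' a ha), P.ord_pow, hlamP, h9] at h11
    have h12 : -e P ≤ P.ord (eval x' (F a)) := (ge_eval P hx' (hco a)).resolve_left (hG' a ha)
    obtain ⟨ζ, hζ⟩ : ∃ ζ, ζ = P.ord (z a) - s a * pord P x := ⟨_, rfl⟩
    have h13 : (q a : ℤ) * ζ = P.ord (eval x' (F a)) := by
      rw [hζ, mul_sub, h11]
      push_cast
      ring
    have h14 : (1 : ℤ) ≤ q a := by exact_mod_cast h8
    have h15 : (if 0 < P.ord (eval x' (F a)) then 1 else 0) - e P ≤ ζ := by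
      split_ifs with h
      · have : 0 < ζ := by
          by_contra hcon
          push Not at hcon
          rw [← h13] at h
          have : (q a : ℤ) * ζ ≤ 0 := mul_nonpos_of_nonneg_of_nonpos (by omega) hcon
          omega
        omega
      · by_contra hcon
        push Not at hcon
        rw [← h13] at h12
        have h16 : ζ ≤ -e P - 1 := by omega
        have h17 : (q a : ℤ) * ζ ≤ q a * (-e P - 1) := mul_le_mul_of_nonneg_left h16 (by omega)
        have h18 : (q a : ℤ) * (-e P - 1) ≤ 1 * (-e P - 1) :=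
          mul_le_mul_of_nonpos_right h14 (by omega)
        omega
    omega
  have hpz : ∏ a ∈ Finset.univ.filter (fun a => Sum.inr a ∉ b), z a ≠ 0 :=
    Finset.prod_ne_zero_iff.2 fun a ha => hz0 a (Finset.mem_filter.1 ha).2
  rw [P.ord_mul hq0 hpz, ord_prod P _ _ fun a ha => hz0 a (Finset.mem_filter.1 ha).2]
  have h8 := Finset.sum_le_sum (s := Finset.univ.filter (fun a => Sum.inr a ∉ b))
    fun a ha => hzo a (Finset.mem_filter.1 ha).2
  rw [Finset.sum_sub_distrib, Finset.sum_add_distrib, ← Finset.sum_mul, Finset.sum_const,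
    nsmul_eq_mul] at h8
  rw [Finset.sum_sub_distrib, ← h6] at h7
  have h9 : ((Finset.univ.filter (fun a => Sum.inr a ∉ b)).card : ℤ) * e P ≤
      Fintype.card A * e P :=
    mul_le_mul_of_nonneg_right (by exact_mod_cast Finset.card_le_univ _) he
  push_cast at h8 h5 ⊢
  linarith

variable [IsAlgClosed k] [CharZero k] [IsFF k K]

open scoped Classical in
/-- The height inequality. -/
theorem ineq1 (hdat : Data k F dg D e) [Fintype A] {m : ℕ} {C : Finset A}
    (hco : ∀ P a u, Ge P (-e P) ((F a).coeff u)) {q s : A → ℕ} {z : A → K}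
    (hdim : 2 * m + 2 + ∑ a ∈ Finset.univ.filter (fun a => a ∉ C), s a ≤ ∑ a, dg a + C.card)
    {x : Fin (n + 1) → K} (hx0 : x ≠ 0)
    (hrk : Module.finrank K (Full dg D x) ≤ m + 1)
    (hC : ∀ a ∈ C, eval x (F a) = 0) (hCn : ∀ a, a ∉ C → eval x (F a) ≠ 0)
    (hq : ∀ a, a ∉ C → 1 ≤ q a ∧ dg a = q a * s a ∧ z a ^ q a = eval x (F a)) :
    pht k x ≤ ∑ᶠ P, (n + 1 + 2 * Fintype.card A) * e P := by
  classical
  obtain ⟨e0, he0⟩ := Function.ne_iff.1 hx0
  obtain ⟨b, hb0, hbC, hbi, hspan, hcard⟩ := exists_rows hdat.hom hdat.dual he0 hC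
  obtain ⟨σ, hσ⟩ := exists_minor _ hbi
  have hdet : (mx dg D x (fun a => Finsupp.single e0 (dg a)) b σ).det ≠ 0 := by
    unfold mx
    convert hσ
  have hG : ∀ a, Sum.inr a ∉ b → a ∉ C := fun a ha hac => ha (hbC a hac)
  have hrd : ∑ i ∈ b, rd i + C.card + 1 ≤ 2 * b.card := by
    obtain ⟨b', hb'⟩ : ∃ b' : Finset (Option (Ti n A) ⊕ A), b' = insert (Sum.inl none)
      (C.image Sum.inr) := ⟨_, rfl⟩
    have h1 : b' ⊆ b := by
      rw [hb']
      intro i hi
      rcases Finset.mem_insert.1 hi with rfl | hi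
      · exact hb0
      · obtain ⟨a, ha, rfl⟩ := Finset.mem_image.1 hi
        exact hbC a ha
    have h2 : b'.card = C.card + 1 := by
      rw [hb', Finset.card_insert_of_notMem (by simp), Finset.card_image_of_injective _
        Sum.inr_injective]
    have h3 : ∑ i ∈ b', rd i = b'.card := by
      rw [Finset.card_eq_sum_ones]
      refine Finset.sum_congr rfl fun i hi => ?_
      rw [hb'] at hi
      rcases Finset.mem_insert.1 hi with rfl | hi
      · rfl
      · obtain ⟨a, ha, rfl⟩ := Finset.mem_image.1 hi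
        rfl
    have h4 : ∑ i ∈ b \ b', rd i ≤ 2 * (b \ b').card := by
      rw [mul_comm, ← smul_eq_mul, ← Finset.sum_const]
      refine Finset.sum_le_sum fun i _ => ?_
      rcases i with (_ | _) | _
      · exact one_le_two
      · exact le_rfl
      · exact one_le_two
    have h5 := Finset.sum_sdiff (f := fun i => rd i) h1
    have h6 := Finset.card_sdiff_add_card_eq_card h1
    omega
  have hpht : 0 ≤ pht k x :=
    (hgt_nonneg _).trans (Pool.Agent.W603.CX.hgt_le_pht (k := k) x he0 he0)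
  have hsub : ∑ a ∈ Finset.univ.filter (fun a => Sum.inr a ∉ b), s a ≤
      ∑ a ∈ Finset.univ.filter (fun a => a ∉ C), s a := by
    refine Finset.sum_le_sum_of_subset fun a ha => ?_
    rw [Finset.mem_filter] at ha ⊢
    exact ⟨ha.1, hG a ha.2⟩
  refine sum_local hx0 (Θ := (mx dg D x (fun a => Finsupp.single e0 (dg a)) b σ).det /
        (∏ a, if Sum.inr a ∈ b then x e0 ^ dg a else eval x (F a)) *
        ∏ a ∈ Finset.univ.filter (fun a => Sum.inr a ∉ b), z a)
    (a := (∑ a, dg a : ℕ) - (∑ i ∈ b, rd i : ℕ) -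
      (∑ a ∈ Finset.univ.filter (fun a => Sum.inr a ∉ b), s a : ℕ)) (by omega) ?_ (fun P => ?_) hpht
  · refine hdat.fin.subset fun P hP => ?_
    intro h0
    apply hP
    rw [h0, mul_zero]
  · have h1 := local_est1 hdat P (hco P) he0 hb0 σ hspan hcard hdet
      (fun a ha => hCn a (hG a ha)) (fun a ha => hq a (hG a ha))
    convert h1 using 3
    ring

end

end Pool.Agent.Helper53K9.CC
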