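import Pool.Agent.Helper53K9.CC.Ineq
import Pool.Agent.TH145.GC.Limit

/-!
# Limit points of generic cyclic covers are constant
-/

set_option autoImplicit false

open MvPolynomial FF Pool.Agent.W603.LV Pool.Agent.W603.PV Pool.Agent.W602.RG
open Pool.Agent.TH145.GH
open Pool.Agent.TH145.GC (Data Gen Full Cf finite_cf exists_rig_data rank_le)

namespace Pool.Agent.Helper53K9.CC

variable {k0 K : Type} [Field k0] [Field K] [Algebra k0 K] [IsAlgClosed k0] [IsAlgClosed K]
  [CharZero K]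

open scoped Classical in
/-- Limit points are constant. -/
theorem limit1 {n m : ℕ} {A : Type} [Fintype A] {dg : A → ℕ} (E : Subfield K)
    (hE : ∀ r : k0, algebraMap k0 K r ∈ E)
    {F : A → MvPolynomial (Fin (n + 1)) E} {DE : A → (Fin (n + 1) →₀ ℕ) → E → E}
    (hG : Gen F dg DE)
    (D : A → (Fin (n + 1) →₀ ℕ) → Derivation ℤ K K)
    (hDE : ∀ a I (x : E), D a I x = (DE a I x : K))
    (hDk : ∀ a I (r : k0), D a I (algebraMap k0 K r) = 0) (C : Finset A) {q s : A → ℕ}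
    (hq : ∀ a, a ∉ C → 1 ≤ q a ∧ dg a = q a * s a)
    (hd : 2 * m + 2 + ∑ a ∈ Finset.univ.filter (fun a => a ∉ C), s a ≤ ∑ a, dg a + C.card)
    (V : Set (MvPolynomial (Fin (n + 1)) k0)) (hV : Pool.Agent.TH145.MG.DimLE k0 V m)
    (z : Fin (n + 1) → Om K) (w : A → Om K) (hz : ∀ j, z j ∈ OE k0 (E : Set K))
    (hw : ∀ a, w a ∈ OE k0 (E : Set K)) {l0 : Fin (n + 1)}
    (hl0 : z l0 = 1) (hzV : ∀ f ∈ V, eval₂ ((cst K).comp (algebraMap k0 K)) z f = 0)
    (hzC : ∀ a ∈ C, eval z (map ((cst K).comp E.subtype) (F a)) = 0)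
    (hzn : ∀ a, a ∉ C → eval z (map ((cst K).comp E.subtype) (F a)) ≠ 0)
    (hwq : ∀ a, a ∉ C → w a ^ q a = eval z (map ((cst K).comp E.subtype) (F a)))
    (j : Fin (n + 1)) : z j ∈ acl (cst K '' (E : Set K)) := by
  by_contra hj1
  obtain ⟨κ, Λ, M, φ, D', hac, hFF, hzΛ', hzκ, hXM, hEκ, hφ, hdat, hdich, hDk'⟩ :=
    exists_rig_data E hE hG D hDE hDk (Sum.elim z w) (by
      rintro (j | a)
      · exact hz j
      · exact hw a) ∅ (by simp) (Sum.inl j) hj1
  have hzΛ : ∀ j, z j ∈ Λ := fun j => hzΛ' (Sum.inl j)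
  have hwΛ : ∀ a, w a ∈ Λ := fun a => hzΛ' (Sum.inr a)
  have hczOm : CharZero (Om K) :=
    charZero_of_injective_algebraMap (algebraMap K (Om K)).injective
  have hcz : CharZero κ := charZero_of_injective_algebraMap (algebraMap ℚ κ).injective
  have hczΛ : CharZero Λ := charZero_of_injective_algebraMap (algebraMap κ Λ).injective
  obtain ⟨x, hx⟩ : ∃ x : Fin (n + 1) → Λ, ∀ j, x j = ⟨z j, hzΛ j⟩ := ⟨_, fun _ => rfl⟩
  obtain ⟨w', hw'⟩ : ∃ w' : A → Λ, ∀ a, w' a = ⟨w a, hwΛ a⟩ := ⟨_, fun _ => rfl⟩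
  have hxz : (fun j => ((x j : Λ) : Om K)) = z := by
    funext j
    rw [hx]
  have hxl0 : x l0 = 1 := by
    rw [hx]
    exact Subtype.ext hl0
  have hx0 : x ≠ 0 := by
    intro h0
    rw [h0] at hxl0
    exact zero_ne_one hxl0
  have hev : ∀ a, ((eval x (map φ (F a)) : Λ) : Om K) =
      eval z (map ((cst K).comp E.subtype) (F a)) := fun a => by
    rw [eval_lift φ hφ (F a) x, hxz]
  have hxC : ∀ a ∈ C, eval x (map φ (F a)) = 0 := fun a ha => by
    apply Subtype.ext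
    rw [hev, hzC a ha]
    rfl
  have hxF : ∀ a, a ∉ C → eval x (map φ (F a)) ≠ 0 := by
    intro a ha h0
    have h1 := hev a
    rw [h0] at h1
    exact hzn a ha h1.symm
  have hxq : ∀ a, a ∉ C → w' a ^ q a = eval x (map φ (F a)) := by
    intro a ha
    apply Subtype.ext
    rw [hev, ← hwq a ha, hw']
    rfl
  -- the dimension
  have hrk : Module.finrank Λ (Full dg D' x) ≤ m + 1 := by
    let ψ : k0 →+* E := (algebraMap k0 K).codRestrict E hE
    let _ : Algebra k0 Λ := (φ.comp ψ).toAlgebra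
    refine rank_le (k0 := k0) (fun a I r => hDk' a I r) hxl0 ?_
    refine hV Λ x hx0 fun f hf => ?_
    apply Subtype.ext
    have h1 := hom_eval₂ f (φ.comp ψ) (algebraMap Λ (Om K)) x
    refine h1.trans ?_
    have h2 : (algebraMap Λ (Om K)).comp (φ.comp ψ) = (cst K).comp (algebraMap k0 K) := by
      ext r
      exact hφ (ψ r)
    rw [h2]
    have h3 : (fun i => algebraMap Λ (Om K) (x i)) = z := hxz
    rw [h3]
    exact hzV f hf
  have h1 := ineq1 hdat (C := C) (q := q) (s := s) (z := w') (fun P a u => by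
    rw [coeff_map]
    have h2 : φ ((F a).coeff u) = algebraMap κ Λ ⟨cst K (((F a).coeff u : E) : K),
        hEκ _ ((F a).coeff u).2⟩ := by
      apply Subtype.ext
      exact hφ _
    rw [h2, neg_zero]
    exact Ge.const _) hd hx0 hrk hxC hxF
    (fun a ha => ⟨(hq a ha).1, (hq a ha).2, hxq a ha⟩)
  simp only [mul_zero, finsum_zero] at h1
  obtain ⟨c, hc⟩ := const_of_pht h1 hxl0 j
  apply hzκ
  have h2 := congrArg (fun w : Λ => (w : Om K)) hc
  rw [hx] at h2
  change z j = (c : Om K) at h2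
  change z j ∈ κ
  rw [h2]
  exact c.2

end Pool.Agent.Helper53K9.CC
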