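import Pool.Agent.Helper53K9.CC.Fin
import Pool.Agent.TH145.GE.CurveMain

/-!
# Generic cyclic covers: rational points and curves
-/

set_option autoImplicit false

open MvPolynomial FF Pool.Agent.W603.LV Pool.Agent.W603.PV
open Pool.Agent.TH145.MG (DimLE)
open Pool.Agent.TH145.GC (Rt)

namespace Pool.Agent.Helper53K9.CC

/-- The equations of the cover: the point `x` is in the closed subset given by the forms of `V`, and
`z a ^ q a = F a (x)` for all `a` outside of `C`, and `F a (x) = 0` for all `a` in `C` (and then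
`z a = 0`). -/
def OnCover {K A R : Type} [Field K] [CommRing R] [Algebra K R] {n : ℕ}
    (V : Set (MvPolynomial (Fin (n + 1)) K)) (F : A → MvPolynomial (Fin (n + 1)) K) (q : A → ℕ)
    (C : Finset A) (x : Fin (n + 1) → R) (z : A → R) : Prop :=
  (∀ f ∈ V, aeval x f = 0) ∧ (∀ a ∈ C, z a = 0 ∧ aeval x (F a) = 0) ∧
    ∀ a, a ∉ C → z a ^ q a = aeval x (F a)

variable {k K : Type} [Field k] [Field K] [IsAlgClosed K] [CharZero K] [Algebra k K] {n m : ℕ}
  {A : Type} [Fintype A] {d q s : A → ℕ}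

open scoped Classical in
theorem cond_mono {C C' : Finset A} (hC : C ⊆ C')
    (hd : 2 * m + 2 + ∑ a ∈ Finset.univ.filter (fun a => a ∉ C), s a ≤ ∑ a, d a + C.card) :
    2 * m + 2 + ∑ a ∈ Finset.univ.filter (fun a => a ∉ C'), s a ≤ ∑ a, d a + C'.card := by
  have h1 : ∑ a ∈ Finset.univ.filter (fun a => a ∉ C'), s a ≤
      ∑ a ∈ Finset.univ.filter (fun a => a ∉ C), s a := by
    refine Finset.sum_le_sum_of_subset fun a ha => ?_
    rw [Finset.mem_filter] at ha ⊢
    exact ⟨ha.1, fun h => ha.2 (hC h)⟩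
  have h2 := Finset.card_le_card hC
  omega

open scoped Classical in
/-- Finiteness of the points of the cover. -/
theorem fin_cover (C : Finset A) (hq1 : ∀ a, a ∉ C → 1 ≤ q a) (hqs : ∀ a, a ∉ C → d a = q a * s a)
    (hd : 2 * m + 2 + ∑ a ∈ Finset.univ.filter (fun a => a ∉ C), s a ≤ ∑ a, d a + C.card)
    (V : Set (MvPolynomial (Fin (n + 1)) (algebraicClosure k K)))
    (hV : DimLE (algebraicClosure k K) V m)
    (F : A → MvPolynomial (Fin (n + 1)) K) (hF : ∀ a, (F a).IsHomogeneous (d a))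
    (I0 : A → Fin (n + 1) →₀ ℕ) (h0 : ∀ a, (F a).coeff (I0 a) ≠ 0)
    (hgen : AlgebraicIndependent k fun p : Rt d I0 =>
      (F p.1).coeff p.2.1 / (F p.1).coeff (I0 p.1)) (T : Finset K) (l : Fin (n + 1)) :
    {p : (Fin (n + 1) → K) × (A → K) | p.1 l = 1 ∧
      (∀ i, p.1 i ∈ IntermediateField.adjoin (algebraicClosure k K) (T : Set K)) ∧
      (∀ a, p.2 a ∈ IntermediateField.adjoin (algebraicClosure k K) (T : Set K)) ∧
      OnCover (map (algebraMap (algebraicClosure k K) K) '' V) F q C p.1 p.2}.Finite := by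
  have hac : IsAlgClosed (algebraicClosure k K) := (algebraicClosure.isAlgClosure k K).isAlgClosed
  obtain ⟨S, hS⟩ : ∃ S : Finset A → Set (Fin (n + 1) → K), ∀ C', S C' = {x : Fin (n + 1) → K |
      (∀ j, x j ∈ IntermediateField.adjoin (algebraicClosure k K) (T : Set K)) ∧ x l = 1 ∧
      (∀ f ∈ V, aeval x f = 0) ∧ (∀ a ∈ C', eval x (F a) = 0) ∧
      (∀ a, a ∉ C' → eval x (F a) ≠ 0) ∧ ∀ a, a ∉ C' →
        ∃ w ∈ IntermediateField.adjoin (algebraicClosure k K) (T : Set K),
          w ^ q a = eval x (F a)} := ⟨_, fun _ => rfl⟩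
  have h1 : ∀ C', C ⊆ C' → (S C').Finite := by
    intro C' hC'
    rw [hS]
    exact fin_points1' C' (fun a ha => ⟨hq1 a fun h => ha (hC' h), hqs a fun h => ha (hC' h)⟩)
      (cond_mono hC' hd) V hV F hF I0 h0 hgen.algebraicClosure T l
  have h2 : (⋃ C' ∈ {C' : Finset A | C ⊆ C'}, S C').Finite :=
    (Set.toFinite _).biUnion fun C' hC' => h1 C' hC'
  have h3 : ∀ x : Fin (n + 1) → K, {z : A → K | (∀ a ∈ C, z a = 0) ∧
      ∀ a, a ∉ C → z a ^ q a = eval x (F a)}.Finite := by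
    intro x
    refine (Set.Finite.pi' (t := fun a => if a ∈ C then {0} else
      {w : K | w ^ q a = eval x (F a)}) fun a => ?_).subset fun z hz a => ?_
    · by_cases ha : a ∈ C
      · rw [if_pos ha]
        exact Set.finite_singleton _
      · rw [if_neg ha]
        have h4 : (Polynomial.X ^ q a - Polynomial.C (eval x (F a)) : Polynomial K) ≠ 0 :=
          Polynomial.X_pow_sub_C_ne_zero (hq1 a ha) _
        refine (Polynomial.X ^ q a - Polynomial.C (eval x (F a)) :
          Polynomial K).roots.toFinset.finite_toSet.subset fun w hw => ?_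
        have hw : w ^ q a = eval x (F a) := hw
        rw [Finset.mem_coe, Multiset.mem_toFinset, Polynomial.mem_roots h4, Polynomial.IsRoot.def,
          Polynomial.eval_sub, Polynomial.eval_pow, Polynomial.eval_X, Polynomial.eval_C, hw,
          sub_self]
    · by_cases ha : a ∈ C
      · rw [if_pos ha]
        exact hz.1 a ha
      · rw [if_neg ha]
        exact hz.2 a ha
  have h4 : (⋃ x ∈ ⋃ C' ∈ {C' : Finset A | C ⊆ C'}, S C', {p : (Fin (n + 1) → K) × (A → K) |
      p.1 = x ∧ p.2 ∈ {z : A → K | (∀ a ∈ C, z a = 0) ∧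
      ∀ a, a ∉ C → z a ^ q a = eval x (F a)}}).Finite := by
    refine h2.biUnion fun x _ => ?_
    refine ((h3 x).image fun z => (x, z)).subset ?_
    rintro ⟨x', z⟩ ⟨h5, h6⟩
    exact ⟨z, h6, Prod.ext h5.symm rfl⟩
  refine h4.subset ?_
  rintro ⟨x, z⟩ ⟨hxl, hxT, hzT, hxV, hxC, hxz⟩
  have hxz : ∀ a, a ∉ C → z a ^ q a = eval x (F a) := fun a ha => by
    have := hxz a ha
    rwa [aeval_eq_eval] at this
  have hxC : ∀ a ∈ C, z a = 0 ∧ eval x (F a) = 0 := fun a ha => by
    have := hxC a ha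
    rwa [aeval_eq_eval] at this
  refine Set.mem_biUnion (x := x) (Set.mem_biUnion
    (x := Finset.univ.filter fun a => eval x (F a) = 0) ?_ ?_) ⟨rfl, ?_⟩
  · intro a ha
    exact Finset.mem_filter.2 ⟨Finset.mem_univ _, (hxC a ha).2⟩
  · rw [hS]
    refine ⟨hxT, hxl, fun f hf => ?_, fun a ha => (Finset.mem_filter.1 ha).2, fun a ha h => ?_,
      fun a ha => ⟨z a, hzT a, hxz a fun h => ?_⟩⟩
    · have := hxV _ ⟨f, hf, rfl⟩
      rwa [aeval_map_algebraMap] at this
    · exact ha (Finset.mem_filter.2 ⟨Finset.mem_univ _, h⟩)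
    · exact ha (Finset.mem_filter.2 ⟨Finset.mem_univ _, (hxC a h).2⟩)
  · exact ⟨fun a ha => (hxC a ha).1, hxz⟩

open scoped Classical in
/-- The number of the places with a zero of one of the forms. -/
theorem ncard_le {L : Type} [Field L] [Algebra K L] [IsFF K L]
    (F : A → MvPolynomial (Fin (n + 1)) K) (hF : ∀ a, (F a).IsHomogeneous (d a))
    {x : Fin (n + 1) → L} (hx0 : x ≠ 0) {z : A → L} (C' : Finset A)
    (hq1 : ∀ a, a ∉ C' → 1 ≤ q a) (hqs : ∀ a, a ∉ C' → d a = q a * s a)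
    (hz : ∀ a, a ∉ C' → z a ^ q a = aeval x (F a)) (hn : ∀ a, a ∉ C' → aeval x (F a) ≠ 0) :
    (({P : Place K L | ∃ a, a ∉ C' ∧ d a * pord P x < P.ord (aeval x (F a))}.ncard : ℕ) : ℤ) ≤
      (∑ a ∈ Finset.univ.filter (fun a => a ∉ C'), s a : ℕ) * pht K x := by
  obtain ⟨U, hU⟩ : ∃ U : Finset A, U = Finset.univ.filter (fun a => a ∉ C') := ⟨_, rfl⟩
  have hmU : ∀ a, a ∈ U ↔ a ∉ C' := fun a => by rw [hU, Finset.mem_filter]; simp
  rw [← hU]
  have hz0 : ∀ a, a ∉ C' → z a ≠ 0 := by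
    intro a ha h
    have h1 := hz a ha
    rw [h, zero_pow (by have := hq1 a ha; omega)] at h1
    exact hn a ha h1.symm
  have hord : ∀ (P : Place K L) a, a ∉ C' → d a * pord P x ≤ P.ord (aeval x (F a)) := by
    intro P a ha
    have h1 := ge_form P x (hF a) fun α _ => Ge.const (P := P) ((F a).coeff α)
    exact h1.resolve_left (hn a ha)
  have hζ : ∀ (P : Place K L) a, a ∉ C' → (q a : ℤ) * (P.ord (z a) - s a * pord P x) =
      P.ord (aeval x (F a)) - d a * pord P x := by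
    intro P a ha
    rw [← hz a ha, P.ord_pow, hqs a ha]
    push_cast
    ring
  have hnn : ∀ (P : Place K L) a, a ∉ C' → 0 ≤ P.ord (z a) - s a * pord P x := by
    intro P a ha
    by_contra hcon
    push Not at hcon
    have h1 := hζ P a ha
    have h2 := hord P a ha
    have h3 : (1 : ℤ) ≤ q a := by exact_mod_cast hq1 a ha
    have h4 : (q a : ℤ) * (P.ord (z a) - s a * pord P x) < 0 := mul_neg_of_pos_of_neg (by omega) hcon
    omega
  have hp := pord_finite (k := K) (Function.ne_iff.1 hx0)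
  obtain ⟨T, hT⟩ := exists_supp (k := K) U z
  obtain ⟨W, hW⟩ : ∃ W : Finset (Place K L), W = T ∪ hp.toFinset := ⟨_, rfl⟩
  have h1 : ∀ a, a ∈ U → ∑ P ∈ W, P.ord (z a) = 0 := fun a ha =>
    sum_ord_finset _ _ fun P hP => by
      rw [hW]
      exact Finset.mem_union_left _ (hT a ha P hP)
  have h2 : pht K x = - ∑ P ∈ W, pord P x := by
    unfold pht
    rw [finsum_eq_sum_of_support_subset (s := W)]
    intro P hP
    rw [hW]
    exact Finset.mem_union_right _ (hp.mem_toFinset.2 hP)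
  have h3 : ∑ P ∈ W, ∑ a ∈ U, (P.ord (z a) - s a * pord P x) = (∑ a ∈ U, s a : ℕ) * pht K x := by
    rw [Finset.sum_comm, h2]
    have h4 : ∀ a ∈ U, ∑ P ∈ W, (P.ord (z a) - s a * pord P x) =
        s a * -∑ P ∈ W, pord P x := fun a ha => by
      rw [Finset.sum_sub_distrib, h1 a ha, ← Finset.mul_sum]
      ring
    rw [Finset.sum_congr rfl h4, ← Finset.sum_mul]
    push_cast
    rfl
  rw [← h3]
  have h4 : {P : Place K L | ∃ a, a ∉ C' ∧ d a * pord P x < P.ord (aeval x (F a))} ⊆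
      (W.filter fun P => ∃ a, a ∉ C' ∧ d a * pord P x < P.ord (aeval x (F a)) :
        Finset (Place K L)) := by
    rintro P ⟨a, ha, hP⟩
    rw [Finset.mem_coe, Finset.mem_filter]
    refine ⟨?_, a, ha, hP⟩
    by_contra hcon
    rw [hW, Finset.mem_union, not_or] at hcon
    have h5 : pord P x = 0 := by
      by_contra h
      exact hcon.2 (hp.mem_toFinset.2 h)
    have h6 : P.ord (z a) = 0 := by
      by_contra h
      exact hcon.1 (hT a ((hmU a).2 ha) P h)
    have h7 := hζ P a ha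
    rw [h5, h6] at h7
    rw [h5] at hP
    simp only [mul_zero, sub_zero] at h7 hP
    omega
  have h5 := Set.ncard_le_ncard h4 (Finset.finite_toSet _)
  rw [Set.ncard_coe_finset] at h5
  refine (Int.ofNat_le.2 h5).trans ?_
  rw [Finset.card_eq_sum_ones, Finset.sum_filter]
  push_cast
  refine Finset.sum_le_sum fun P _ => ?_
  split_ifs with h
  · obtain ⟨a, ha, hP⟩ := h
    have h6 : 1 ≤ P.ord (z a) - s a * pord P x := by
      by_contra hcon
      push Not at hcon
      have h7 := hnn P a ha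
      have h8 : P.ord (z a) - s a * pord P x = 0 := by omega
      have h9 := hζ P a ha
      rw [h8, mul_zero] at h9
      omega
    refine h6.trans (Finset.single_le_sum (f := fun a => P.ord (z a) - s a * pord P x)
      (fun a ha => hnn P a ((hmU a).1 ha)) ((hmU a).2 ha))
  · exact Finset.sum_nonneg fun a ha => hnn P a ((hmU a).1 ha)

open scoped Classical in
/-- The degree inequality for curves in the cover. -/
theorem curve_cover (C : Finset A) (hq1 : ∀ a, a ∉ C → 1 ≤ q a)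
    (hqs : ∀ a, a ∉ C → d a = q a * s a)
    (V : Set (MvPolynomial (Fin (n + 1)) (algebraicClosure k K)))
    (hVh : ∀ f ∈ V, ∃ e, f.IsHomogeneous e) (hV : DimLE (algebraicClosure k K) V m)
    (F : A → MvPolynomial (Fin (n + 1)) K) (hF : ∀ a, (F a).IsHomogeneous (d a))
    (I0 : A → Fin (n + 1) →₀ ℕ) (h0 : ∀ a, (F a).coeff (I0 a) ≠ 0)
    (hgen : AlgebraicIndependent k fun p : Rt d I0 =>
      (F p.1).coeff p.2.1 / (F p.1).coeff (I0 p.1))
    {L : Type} [Field L] [Algebra K L] [IsFF K L] (x : Fin (n + 1) → L) (z : A → L)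
    (hx : ∃ i j, x j ≠ 0 ∧ x i / x j ∉ Set.range (algebraMap K L))
    (h : OnCover (map (algebraMap (algebraicClosure k K) K) '' V) F q C x z) :
    (((∑ a, d a : ℕ) : ℤ) + C.card - (∑ a ∈ Finset.univ.filter (fun a => a ∉ C), s a : ℕ) - 2 * m) *
      pht K x ≤ canDeg K L := by
  obtain ⟨hxV, hxC, hxz⟩ := h
  obtain ⟨C', hC'⟩ : ∃ C' : Finset A, C' = Finset.univ.filter fun a => aeval x (F a) = 0 :=
    ⟨_, rfl⟩
  have hm : ∀ a, a ∈ C' ↔ aeval x (F a) = 0 := fun a => by rw [hC', Finset.mem_filter]; simp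
  have hCC : C ⊆ C' := fun a ha => (hm a).2 (hxC a ha).2
  have hx0 : x ≠ 0 := by
    obtain ⟨i, j, hj, -⟩ := hx
    intro h
    exact hj (congrFun h j)
  have h1 := Pool.Agent.TH145.GE.curve_generic V hVh hV F hF I0 h0 hgen.algebraicClosure C' x hx
    (fun f hf => hxV _ ⟨f, hf, rfl⟩) (fun a ha => (hm a).1 ha) (fun a ha h => ha ((hm a).2 h))
  have h2 := ncard_le (d := d) (q := q) (s := s) F hF hx0 (z := z) C'
    (fun a ha => hq1 a fun h => ha (hCC h)) (fun a ha => hqs a fun h => ha (hCC h))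
    (fun a ha => hxz a fun h => ha (hCC h)) (fun a ha h => ha ((hm a).2 h))
  have h3 : ∑ a ∈ Finset.univ.filter (fun a => a ∉ C'), s a ≤
      ∑ a ∈ Finset.univ.filter (fun a => a ∉ C), s a := by
    refine Finset.sum_le_sum_of_subset fun a ha => ?_
    rw [Finset.mem_filter] at ha ⊢
    exact ⟨ha.1, fun h => ha.2 (hCC h)⟩
  have h4 := Finset.card_le_card hCC
  have hpht : 0 ≤ pht K x := by
    obtain ⟨j, hj⟩ := Function.ne_iff.1 hx0
    exact (hgt_nonneg _).trans (Pool.Agent.W603.CX.hgt_le_pht (k := K) x hj hj)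
  have h5 : (((∑ a, d a : ℕ) : ℤ) + C.card -
      (∑ a ∈ Finset.univ.filter (fun a => a ∉ C), s a : ℕ) - 2 * m) * pht K x ≤
      (((∑ a, d a : ℕ) : ℤ) + C'.card -
      (∑ a ∈ Finset.univ.filter (fun a => a ∉ C'), s a : ℕ) - 2 * m) * pht K x := by
    refine mul_le_mul_of_nonneg_right ?_ hpht
    have h6 : ((∑ a ∈ Finset.univ.filter (fun a => a ∉ C'), s a : ℕ) : ℤ) ≤
        (∑ a ∈ Finset.univ.filter (fun a => a ∉ C), s a : ℕ) := by exact_mod_cast h3
    have h7 : (C.card : ℤ) ≤ C'.card := by exact_mod_cast h4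
    linarith
  refine h5.trans ?_
  have h6 : (((∑ a, d a : ℕ) : ℤ) + C'.card -
      (∑ a ∈ Finset.univ.filter (fun a => a ∉ C'), s a : ℕ) - 2 * m) * pht K x =
      (((∑ a, d a : ℕ) : ℤ) + C'.card - 2 * m) * pht K x -
      (∑ a ∈ Finset.univ.filter (fun a => a ∉ C'), s a : ℕ) * pht K x := by ring
  rw [h6]
  linarith

end Pool.Agent.Helper53K9.CC
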